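import Pool.Agent.helper14.AV.Spec4

set_option autoImplicit false

namespace Pool.Agent.helper14.AV

theorem DSJ_aff (a b c d x : ℝ × ℝ) (hx : x ∈ segment ℝ c d) :
    ∃ s t : ℝ, 0 ≤ s ∧ 0 ≤ t ∧ s + t = 1 ∧ D a b x = s * D a b c + t * D a b d := by
  obtain ⟨s, t, hs, ht, hst, rfl⟩ := hx
  refine ⟨s, t, hs, ht, hst, ?_⟩
  simp only [D, Prod.fst_add, Prod.snd_add, Prod.smul_fst, Prod.smul_snd, smul_eq_mul]
  linear_combination ((b.1 - a.1) * a.2 - (b.2 - a.2) * a.1) * hst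

theorem DSJ_pos (a b c d x : ℝ × ℝ) (hc : 0 < D a b c) (hd : 0 < D a b d)
    (hx : x ∈ segment ℝ c d) : 0 < D a b x := by
  obtain ⟨s, t, hs, ht, hst, h⟩ := DSJ_aff a b c d x hx
  rw [h]
  rcases hs.lt_or_eq with h1 | h1
  · have h2 := mul_pos h1 hc
    have h3 := mul_nonneg ht hd.le
    linarith
  · have h4 : t = 1 := by linarith
    rw [← h1, h4]
    linarith

theorem DSJ_neg (a b c d x : ℝ × ℝ) (hc : D a b c < 0) (hd : D a b d < 0)
    (hx : x ∈ segment ℝ c d) : D a b x < 0 := by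
  obtain ⟨s, t, hs, ht, hst, h⟩ := DSJ_aff a b c d x hx
  rw [h]
  rcases hs.lt_or_eq with h1 | h1
  · have h2 := mul_pos h1 (neg_pos.mpr hc)
    have h3 := mul_nonneg ht (neg_pos.mpr hd).le
    linarith
  · have h4 : t = 1 := by linarith
    rw [← h1, h4]
    linarith

theorem DSJ_zero (a b x : ℝ × ℝ) (hx : x ∈ segment ℝ a b) : D a b x = 0 := by
  obtain ⟨s, t, hs, ht, hst, h⟩ := DSJ_aff a b a b x hx
  rw [h]
  simp only [D]
  ring

/-- a segment strictly on one side of a line -/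
theorem DSJ_side (a b c d x : ℝ × ℝ) (h : 0 < D a b c * D a b d) (hx : x ∈ segment ℝ c d) :
    (0 < D a b c ∧ 0 < D a b x) ∨ (D a b c < 0 ∧ D a b x < 0) := by
  rcases pos_and_pos_or_neg_and_neg_of_mul_pos h with ⟨h1, h2⟩ | ⟨h1, h2⟩
  · exact Or.inl ⟨h1, DSJ_pos a b c d x h1 h2 hx⟩
  · exact Or.inr ⟨h1, DSJ_neg a b c d x h1 h2 hx⟩

theorem DSJ : DSJ_stmt := by
  intro ι _ A B W U hC
  induction hC with
  | nil W =>
    intro i hi
    exact absurd hi (Finset.notMem_empty i)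
  | cut W U WL UL WR UR v hv hD hWL hWR hUL hUR hL hR ihL ihR =>
    intro i hi j hj hij
    rw [Set.disjoint_left]
    intro x hxi hxj
    by_cases hiv : i = v
    · subst hiv
      have hz := DSJ_zero _ _ x hxi
      rcases DSJ_side _ _ _ _ x (hD j (hj.symm) (Ne.symm hij)) hxj with ⟨_, h⟩ | ⟨_, h⟩
      · linarith
      · linarith
    by_cases hjv : j = v
    · subst hjv
      have hz := DSJ_zero _ _ x hxj
      rcases DSJ_side _ _ _ _ x (hD i (Or.inr hi) hij) hxi with ⟨_, h⟩ | ⟨_, h⟩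
      · linarith
      · linarith
    rcases DSJ_side _ _ _ _ x (hD i (Or.inr hi) hiv) hxi with ⟨hi1, hi2⟩ | ⟨hi1, hi2⟩
    · rcases DSJ_side _ _ _ _ x (hD j hj.symm hjv) hxj with ⟨hj1, hj2⟩ | ⟨hj1, hj2⟩
      · have hiU : i ∈ UL := (hUL i).mpr ⟨hi, hiv, hi1⟩
        have hjU : j ∈ UL ∨ j ∈ WL := by
          rcases hj with hj | hj
          · exact Or.inl ((hUL j).mpr ⟨hj, hjv, hj1⟩)
          · exact Or.inr ((hWL j).mpr (Or.inr ⟨hj, hj1⟩))
        exact Set.disjoint_left.mp (ihL i hiU j hjU hij) hxi hxj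
      · linarith
    · rcases DSJ_side _ _ _ _ x (hD j hj.symm hjv) hxj with ⟨hj1, hj2⟩ | ⟨hj1, hj2⟩
      · linarith
      · have hiU : i ∈ UR := (hUR i).mpr ⟨hi, hiv, hi1⟩
        have hjU : j ∈ UR ∨ j ∈ WR := by
          rcases hj with hj | hj
          · exact Or.inl ((hUR j).mpr ⟨hj, hjv, hj1⟩)
          · exact Or.inr ((hWR j).mpr (Or.inr ⟨hj, hj1⟩))
        exact Set.disjoint_left.mp (ihR i hiU j hjU hij) hxi hxj

end Pool.Agent.helper14.AV
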